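import Pool.Agent.TH47.SG.Radius

/-! # The width of a strip is determined by its measure -/

set_option autoImplicit false

open MeasureTheory ProbabilityTheory Set Filter Topology

namespace Pool.Agent.TH47.SG

theorem Icc_strict (b c : ℝ) (hb : 0 ≤ b) (h : b < c) :
    g1.real (Icc (-b) b) < g1.real (Icc (-c) c) := by
  have h1 : 0 < g1.real (Icc ((b + c) / 2) c) := Icc_pos _ _ (by linarith)
  have hdis : Disjoint (Icc (-b) b) (Icc ((b + c) / 2) c) := by
    rw [Set.disjoint_left]
    intro x hx hx2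
    have := hx.2
    have := hx2.1
    linarith
  have hsub : Icc (-b) b ∪ Icc ((b + c) / 2) c ⊆ Icc (-c) c := by
    rintro x (hx | hx)
    · exact ⟨by linarith [hx.1], by linarith [hx.2]⟩
    · exact ⟨by linarith [hx.1], hx.2⟩
  have h4 : g1.real (Icc (-b) b ∪ Icc ((b + c) / 2) c) =
      g1.real (Icc (-b) b) + g1.real (Icc ((b + c) / 2) c) :=
    measureReal_union' hdis measurableSet_Icc
  have h5 : g1.real (Icc (-b) b ∪ Icc ((b + c) / 2) c) ≤ g1.real (Icc (-c) c) :=
    measureReal_mono hsub (measure_ne_top _ _)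
  linarith

theorem Icc_real_nonneg (b : ℝ) (h : 0 < g1.real (Icc (-b) b)) : 0 ≤ b := by
  by_contra hb
  rw [Icc_eq_empty (by linarith)] at h
  simp at h

theorem strip_unique (n : ℕ) [NeZero n] (b c : ℝ) (hb : 0 < (gam n).real (strip n b))
    (h : (gam n).real (strip n b) = (gam n).real (strip n c)) : b = c := by
  rw [strip_real] at hb
  rw [strip_real, strip_real] at h
  have hc : 0 < g1.real (Icc (-c) c) := by rw [← h]; exact hb
  have hb0 := Icc_real_nonneg b hb
  have hc0 := Icc_real_nonneg c hc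
  rcases lt_trichotomy b c with h1 | h1 | h1
  · exact absurd h (ne_of_lt (Icc_strict b c hb0 h1))
  · exact h1
  · exact absurd h (ne_of_gt (Icc_strict c b hc0 h1))

theorem costrip_real (n : ℕ) [NeZero n] (a : ℝ) :
    (gam n).real (strip n a)ᶜ = 1 - (gam n).real (strip n a) := by
  rw [measureReal_compl (meas_strip n a)]; simp

theorem exists_strip (n : ℕ) [NeZero n] (m : ℝ) (h0 : 0 < m) (h1 : m < 1) :
    ∃ b : ℝ, (gam n).real (strip n b) = m := by
  obtain ⟨b, -, hb⟩ := exists_Icc m h0 h1
  exact ⟨b, by rw [strip_real]; exact hb⟩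

end Pool.Agent.TH47.SG
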