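import Mathlib

/-! # The symmetric Gaussian problem: definitions -/

set_option autoImplicit false

open MeasureTheory ProbabilityTheory Set

namespace Pool.Agent.TH47.SG

/-- the standard Gaussian measure on `ℝⁿ` -/
noncomputable def gam (n : ℕ) : Measure (Fin n → ℝ) := Measure.pi fun _ => gaussianReal 0 1

/-- `P[x ∈ A, y ∈ B]` for a pair of `ρ`-correlated Gaussians: `y = ρ x + √(1 - ρ²) z` with `x`, `z`
independent standard Gaussians -/
noncomputable def corr {n : ℕ} (ρ : ℝ) (A B : Set (Fin n → ℝ)) : ℝ :=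
  ((gam n).prod (gam n)).real {p | p.1 ∈ A ∧ (fun i => ρ * p.1 i + √(1 - ρ ^ 2) * p.2 i) ∈ B}

/-- the closed Euclidean ball of radius `r` around the origin -/
def ball (n : ℕ) (r : ℝ) : Set (Fin n → ℝ) := {x | ∑ i, x i ^ 2 ≤ r ^ 2}

/-- the symmetric strip `|x₁| ≤ b` -/
def strip (n : ℕ) [NeZero n] (b : ℝ) : Set (Fin n → ℝ) := {x | |x 0| ≤ b}

/-- `m_n(ρ, μ, ν)`: the infimum of `P[x ∈ A, y ∈ B]` over Borel sets of Gaussian measures `μ`, `ν`
with `A = -A` -/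
noncomputable def mn (n : ℕ) (ρ μ ν : ℝ) : ℝ :=
  sInf {c | ∃ A B : Set (Fin n → ℝ), MeasurableSet A ∧ MeasurableSet B ∧ (∀ x, x ∈ A ↔ -x ∈ A) ∧
    (gam n).real A = μ ∧ (gam n).real B = ν ∧ corr ρ A B = c}

end Pool.Agent.TH47.SG
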