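import Pool.Agent.TH47.SG.Multi

/-! # Strips beat balls -/

set_option autoImplicit false

open MeasureTheory ProbabilityTheory Set Filter Topology

namespace Pool.Agent.TH47.SG

theorem meas_ball (n : ℕ) (r : ℝ) : MeasurableSet (ball n r) :=
  measurableSet_le (by fun_prop) measurable_const

theorem meas_strip (n : ℕ) [NeZero n] (b : ℝ) : MeasurableSet (strip n b) :=
  measurableSet_le (by fun_prop) measurable_const

theorem strip_symm (n : ℕ) [NeZero n] (b : ℝ) (x : Fin n → ℝ) : x ∈ strip n b ↔ -x ∈ strip n b := by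
  show |x 0| ≤ b ↔ |(-x) 0| ≤ b
  rw [Pi.neg_apply, abs_neg]

theorem strip_real (n : ℕ) [NeZero n] (b : ℝ) : (gam n).real (strip n b) = g1.real (Icc (-b) b) := by
  rw [← marg (n := n) 0 (Icc (-b) b) measurableSet_Icc]
  congr 1
  ext x
  show |x 0| ≤ b ↔ x 0 ∈ Icc (-b) b
  rw [abs_le, mem_Icc]

theorem cap (n : ℕ) [NeZero n] (r δ : ℝ) (hδ : 0 < δ) (hδr : δ < r) :
    ∃ D : Set (Fin n → ℝ), 0 < (gam n).real D ∧ D ⊆ ball n r ∧ ∀ x ∈ D, r - 2 * δ ≤ x 0 := by
  classical
  have hn : (0 : ℝ) < n := by exact_mod_cast Nat.pos_of_ne_zero (NeZero.ne n)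
  set η : ℝ := √((r ^ 2 - (r - δ) ^ 2) / n) with hη
  have hpos : 0 < (r ^ 2 - (r - δ) ^ 2) / n := by
    apply div_pos _ hn
    nlinarith
  have hη0 : 0 < η := Real.sqrt_pos.2 hpos
  have hη2 : n * η ^ 2 = r ^ 2 - (r - δ) ^ 2 := by
    rw [hη, Real.sq_sqrt hpos.le]
    field_simp
  refine ⟨Set.pi univ (fun i : Fin n => if i = 0 then Icc (max (r - 2 * δ) 0) (r - δ)
    else Icc (-η) η), ?_, ?_, ?_⟩
  · rw [pi_real]
    refine Finset.prod_pos fun i _ => ?_
    split_ifs
    · exact Icc_pos _ _ (max_lt (by linarith) (by linarith))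
    · exact Icc_pos _ _ (by linarith)
  · intro x hx
    show ∑ i, x i ^ 2 ≤ r ^ 2
    have h1 : ∀ i : Fin n, x i ^ 2 ≤ (if i = 0 then (r - δ) ^ 2 else 0) + η ^ 2 := by
      intro i
      have hi := hx i (mem_univ i)
      by_cases h : i = 0
      · simp only [h, if_true] at hi ⊢
        have h2 : 0 ≤ x 0 := (le_max_right _ _).trans hi.1
        nlinarith [hi.2, sq_nonneg η]
      · simp only [h, if_false] at hi ⊢
        have : x i ^ 2 ≤ η ^ 2 := by nlinarith [hi.1, hi.2]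
        linarith
    calc ∑ i, x i ^ 2 ≤ ∑ i : Fin n, ((if i = 0 then (r - δ) ^ 2 else 0) + η ^ 2) :=
          Finset.sum_le_sum fun i _ => h1 i
      _ = (r - δ) ^ 2 + n * η ^ 2 := by
          rw [Finset.sum_add_distrib, Finset.sum_ite_eq' Finset.univ (0 : Fin n)
            (fun _ => (r - δ) ^ 2), if_pos (Finset.mem_univ _), Finset.sum_const,
            Finset.card_univ, Fintype.card_fin, nsmul_eq_mul]
      _ = r ^ 2 := by rw [hη2]; ring
  · intro x hx
    have hi := hx 0 (mem_univ _)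
    simp only [if_true] at hi
    exact (le_max_left _ _).trans hi.1

theorem ball_real_pos (n : ℕ) [NeZero n] (r : ℝ) (hr : 0 < r) : 0 < (gam n).real (ball n r) := by
  obtain ⟨D, h1, h2, _⟩ := cap n r (r / 2) (by linarith) (by linarith)
  exact h1.trans_le (measureReal_mono h2 (measure_ne_top _ _))

theorem coball_real_pos (n : ℕ) [NeZero n] (r : ℝ) (hr : 0 ≤ r) :
    0 < (gam n).real (ball n r)ᶜ := by
  have h1 := Icc_pos (r + 1) (r + 2) (by linarith)
  rw [← marg (n := n) 0 (Icc (r + 1) (r + 2)) measurableSet_Icc] at h1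
  refine h1.trans_le (measureReal_mono ?_ (measure_ne_top _ _))
  intro x hx
  show ¬ (∑ i, x i ^ 2 ≤ r ^ 2)
  rw [not_le]
  have h2 : r + 1 ≤ x 0 := hx.1
  have h3 : x 0 ^ 2 ≤ ∑ i, x i ^ 2 :=
    Finset.single_le_sum (f := fun i => x i ^ 2) (fun i _ => sq_nonneg _) (Finset.mem_univ 0)
  nlinarith

theorem coball_real (n : ℕ) (r : ℝ) : (gam n).real (ball n r)ᶜ = 1 - (gam n).real (ball n r) := by
  rw [measureReal_compl (meas_ball n r)]; simp

/-- the main comparison -/
theorem strips_beat_balls (n : ℕ) [NeZero n] (hn : 2 ≤ n) (ρ r : ℝ) (h0 : 0 < ρ) (h1 : ρ < 1)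
    (hr : 0 < r) :
    ∃ ν0 : ℝ, 0 < ν0 ∧ ∀ R : ℝ, 0 ≤ R → (gam n).real (ball n R)ᶜ < ν0 →
      ∃ b a : ℝ, (gam n).real (strip n b) = (gam n).real (ball n r) ∧
        (gam n).real (strip n a)ᶜ = (gam n).real (ball n R)ᶜ ∧
        corr ρ (strip n b) (strip n a)ᶜ < corr ρ (ball n r) (ball n R)ᶜ := by
  set m := (gam n).real (ball n r) with hm
  have hm0 : 0 < m := ball_real_pos n r hr
  have hm1 : m < 1 := by
    have h2 := coball_real_pos n r hr.le
    rw [coball_real] at h2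
    linarith
  obtain ⟨b, hb0, hb⟩ := exists_Icc m hm0 hm1
  have hbr : b < r := strip_lt_ball n hn r b m hr.le hm0 hm1 hb hm.symm
  have hs : 0 < √(1 - ρ ^ 2) := Real.sqrt_pos.2 (by nlinarith)
  set s := √(1 - ρ ^ 2) with hsdef
  set w := ρ * (r - b) with hw
  have hw0 : 0 < w := mul_pos h0 (by linarith)
  obtain ⟨D, hD0, hD1, hD2⟩ := cap n r ((r - b) / 8) (by linarith) (by linarith)
  set e := w / 8 with he
  have he0 : 0 < e := by positivity
  set q := r - 2 * ((r - b) / 8) with hq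
  set k := w / (2 * s) with hk
  have hk0 : 0 < k := by positivity
  set c := (gam n).real D * ((w / (8 * s)) * (√(2 * Real.pi))⁻¹) with hc
  have hc0 : 0 < c := by positivity
  -- eventually
  have hT : Tendsto (fun a : ℝ => (a - ρ * b) / s) atTop atTop :=
    (tendsto_atTop_add_const_right _ (-(ρ * b)) tendsto_id).atTop_div_const hs
  have hlim : Tendsto (fun a : ℝ => 2 * Real.exp (k ^ 2 / 2) * Real.exp (-(k * ((a - ρ * b) / s))))
      atTop (𝓝 0) := by
    have h3 : Tendsto (fun a : ℝ => Real.exp (-(k * ((a - ρ * b) / s)))) atTop (𝓝 0) :=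
      Real.tendsto_exp_neg_atTop_nhds_zero.comp (hT.const_mul_atTop hk0)
    have := h3.const_mul (2 * Real.exp (k ^ 2 / 2))
    rwa [mul_zero] at this
  have hev := ((large n e he0).and (hlim.eventually (gt_mem_nhds hc0))).and
    (eventually_ge_atTop (max 1 (ρ * (r + b))))
  obtain ⟨a0, ha0⟩ := eventually_atTop.1 hev
  have ha0' := ha0 a0 le_rfl
  refine ⟨g1.real {t | a0 < |t|}, lt_of_le_of_lt measureReal_nonneg ha0'.1.1, ?_⟩
  intro R hR hν
  set ν := (gam n).real (ball n R)ᶜ with hνdef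
  have hν0 : 0 < ν := coball_real_pos n R hR
  have hν1 : ν < 1 := by
    have : g1.real {t | a0 < |t|} ≤ 1 := measureReal_le_one
    linarith
  obtain ⟨a, ha, hga⟩ := exists_Icc (1 - ν) (by linarith) (by linarith)
  have hga' : g1.real {t | a < |t|} = ν := by rw [compl_real, hga]; ring
  have haa : a0 ≤ a := by
    by_contra hlt
    rw [not_le] at hlt
    have : g1.real {t | a0 < |t|} ≤ g1.real {t | a < |t|} :=
      measureReal_mono (fun t ht => lt_trans hlt ht) (measure_ne_top _ _)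
    linarith
  obtain ⟨⟨hl1, hl2⟩, hl3⟩ := ha0 a haa
  have ha1 : 1 ≤ a := (le_max_left _ _).trans hl3
  have ha2 : ρ * (r + b) ≤ a := (le_max_right _ _).trans hl3
  -- the radius of the large ball
  have hRa : R < a + e := by
    by_contra hge
    rw [not_lt] at hge
    have h4 : ν ≤ (gam n).real {x : Fin n → ℝ | (a + e) ^ 2 ≤ ∑ i, x i ^ 2} := by
      refine measureReal_mono ?_ (measure_ne_top _ _)
      intro x hx
      have h5 : R ^ 2 < ∑ i, x i ^ 2 := not_le.1 hx
      show (a + e) ^ 2 ≤ ∑ i, x i ^ 2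
      nlinarith
    linarith
  have hmes : (gam n).real (strip n a)ᶜ = ν := by
    rw [measureReal_compl (meas_strip n a), strip_real, hga]
    simp
  refine ⟨b, a, by rw [strip_real, hb], hmes, ?_⟩
  have hρb : ρ * b ≤ a := by nlinarith
  -- lower bound
  set T := (a + e - ρ * q) / s with hTdef
  have hT0 : 0 ≤ T := by
    apply div_nonneg _ hs.le
    have : ρ * q ≤ ρ * r := by
      apply mul_le_mul_of_nonneg_left _ h0.le
      rw [hq]; linarith
    nlinarith
  have hsT : s * T = a + e - ρ * q := by rw [hTdef]; field_simp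
  have hlow := balls_ge n ρ r R q T (T + w / (8 * s)) D h0 h1 hR hD1 hD2
    (by rw [← hsdef, hsT]; linarith)
  have hws : 0 < w / (8 * s) := by positivity
  have hI := Icc_ge T (T + w / (8 * s)) hT0 (by linarith)
  have hTk : T + w / (8 * s) = (a - ρ * b) / s - k := by
    rw [hTdef, hk, he, hq, hw]
    field_simp
    ring
  have hdiff : T + w / (8 * s) - T = w / (8 * s) := by ring
  rw [hdiff] at hI
  rw [hTk] at hI hlow
  set T1 := (a - ρ * b) / s with hT1
  have hup := strips_le n ρ b a h0 h1 hρb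
  rw [← hsdef, ← hT1] at hup
  refine hup.trans_lt (lt_of_lt_of_le ?_ hlow)
  have h6 : c * Real.exp (-(T1 - k) ^ 2 / 2) ≤ (gam n).real D * g1.real (Icc T (T1 - k)) := by
    rw [hc]
    calc (gam n).real D * (w / (8 * s) * (√(2 * Real.pi))⁻¹) * Real.exp (-(T1 - k) ^ 2 / 2)
        = (gam n).real D * (w / (8 * s) * ((√(2 * Real.pi))⁻¹ * Real.exp (-(T1 - k) ^ 2 / 2))) := by
          ring
      _ ≤ _ := mul_le_mul_of_nonneg_left hI hD0.le
  refine lt_of_lt_of_le ?_ h6
  have h7 : 2 * Real.exp (-T1 ^ 2 / 2) =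
      2 * Real.exp (k ^ 2 / 2) * Real.exp (-(k * T1)) * Real.exp (-(T1 - k) ^ 2 / 2) := by
    rw [mul_assoc, mul_assoc, ← Real.exp_add, ← Real.exp_add]
    congr 2
    ring
  rw [h7]
  exact mul_lt_mul_of_pos_right hl2 (Real.exp_pos _)

theorem mn_le {n : ℕ} (ρ : ℝ) (A B : Set (Fin n → ℝ)) (hA : MeasurableSet A) (hB : MeasurableSet B)
    (hs : ∀ x, x ∈ A ↔ -x ∈ A) : mn n ρ ((gam n).real A) ((gam n).real B) ≤ corr ρ A B := by
  refine csInf_le ⟨0, ?_⟩ ⟨A, B, hA, hB, hs, rfl, rfl, rfl⟩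
  rintro c ⟨A', B', _, _, _, _, _, rfl⟩
  exact measureReal_nonneg

end Pool.Agent.TH47.SG
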