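import Pool.Agent.TH47.SG.One
import Pool.Agent.TH47.SG.Defs

/-! # Gaussian estimates in `ℝⁿ` -/

set_option autoImplicit false

open MeasureTheory ProbabilityTheory Set Filter Topology

namespace Pool.Agent.TH47.SG

instance (n : ℕ) : IsProbabilityMeasure (gam n) := by unfold gam; infer_instance

theorem marg {n : ℕ} (i : Fin n) (s : Set ℝ) (hs : MeasurableSet s) :
    (gam n).real {x | x i ∈ s} = g1.real s := by
  have h := (measurePreserving_eval (fun _ : Fin n => g1) i).measure_preimage hs.nullMeasurableSet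
  unfold Measure.real
  rw [← h]
  rfl

theorem pi_real {n : ℕ} (S : Fin n → Set ℝ) :
    (gam n).real (Set.pi univ S) = ∏ i, g1.real (S i) := by
  unfold Measure.real gam
  rw [Measure.pi_pi, ENNReal.toReal_prod]

theorem cheb (n : ℕ) (a s : ℝ) (ha : 1 ≤ a) :
    (gam n).real {x | s ^ 2 ≤ ∑ i, x i ^ 2} ≤
      a ^ n * Real.exp (-((1 - 1 / a ^ 2) * s ^ 2 / 2)) := by
  have ha0 : 0 < a := by linarith
  set c : ℝ := 1 - 1 / a ^ 2 with hc
  have hc0 : 0 ≤ c := by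
    rw [hc]
    have : 1 / a ^ 2 ≤ 1 := by
      rw [div_le_one (by positivity)]
      nlinarith
    linarith
  have hint : ∫ x : Fin n → ℝ, ∏ i, Real.exp (c * x i ^ 2 / 2) ∂(gam n) = a ^ n := by
    unfold gam
    rw [integral_fintype_prod_eq_pow (ι := Fin n) (fun x : ℝ => Real.exp (c * x ^ 2 / 2)),
      (exp_moment a ha0).2, Fintype.card_fin]
  have hintg : Integrable (fun x : Fin n → ℝ => ∏ i, Real.exp (c * x i ^ 2 / 2)) (gam n) := by
    by_contra h
    rw [integral_undef h] at hint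
    have : 0 < a ^ n := by positivity
    linarith
  have hm := mul_meas_ge_le_integral_of_nonneg (μ := gam n)
    (f := fun x : Fin n → ℝ => ∏ i, Real.exp (c * x i ^ 2 / 2))
    (Eventually.of_forall fun x => Finset.prod_nonneg fun i _ => (Real.exp_pos _).le) hintg
    (Real.exp (c * s ^ 2 / 2))
  rw [hint] at hm
  have hsub : {x : Fin n → ℝ | s ^ 2 ≤ ∑ i, x i ^ 2} ⊆
      {x | Real.exp (c * s ^ 2 / 2) ≤ ∏ i, Real.exp (c * x i ^ 2 / 2)} := by
    intro x hx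
    show Real.exp (c * s ^ 2 / 2) ≤ ∏ i, Real.exp (c * x i ^ 2 / 2)
    rw [← Real.exp_sum, Real.exp_le_exp, ← Finset.sum_div, ← Finset.mul_sum]
    have : s ^ 2 ≤ ∑ i, x i ^ 2 := hx
    gcongr
  have h1 : (gam n).real {x | s ^ 2 ≤ ∑ i, x i ^ 2} ≤
      (gam n).real {x | Real.exp (c * s ^ 2 / 2) ≤ ∏ i, Real.exp (c * x i ^ 2 / 2)} :=
    measureReal_mono hsub
  have h2 : Real.exp (c * s ^ 2 / 2) * (gam n).real {x | s ^ 2 ≤ ∑ i, x i ^ 2} ≤ a ^ n :=
    (mul_le_mul_of_nonneg_left h1 (Real.exp_pos _).le).trans hm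
  rw [Real.exp_neg, ← div_eq_mul_inv, le_div_iff₀ (Real.exp_pos _), mul_comm]
  exact h2

theorem tendsto_aux (n : ℕ) (e : ℝ) (he : 0 < e) :
    Tendsto (fun a : ℝ => a ^ n * Real.exp (-(e * a))) atTop (𝓝 0) := by
  have h1 := (Real.tendsto_pow_mul_exp_neg_atTop_nhds_zero n).comp
    (tendsto_id.const_mul_atTop he)
  have h2 := h1.const_mul ((e ^ n)⁻¹)
  rw [mul_zero] at h2
  refine h2.congr fun a => ?_
  simp only [Function.comp, id]
  have : e ^ n ≠ 0 := by positivity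
  rw [mul_pow]
  field_simp

/-- the radial tail in `ℝⁿ` is smaller than the one-dimensional tail at a slightly smaller
radius -/
theorem large (n : ℕ) (e : ℝ) (he : 0 < e) :
    ∀ᶠ a : ℝ in atTop, (gam n).real {x | (a + e) ^ 2 ≤ ∑ i, x i ^ 2} < g1.real {t | a < |t|} := by
  have hC : 0 < e / 4 * (√(2 * Real.pi))⁻¹ * Real.exp (-((1 + e) ^ 2 / 2)) := by positivity
  have ht := (tendsto_aux n (e / 2) (by positivity)).eventually (gt_mem_nhds hC)
  filter_upwards [ht, eventually_ge_atTop 1] with a h1 h2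
  have ha0 : 0 < a := by linarith
  refine (cheb n a (a + e) h2).trans_lt ?_
  have hlow : e / 4 * ((√(2 * Real.pi))⁻¹ * Real.exp (-(a + e / 2) ^ 2 / 2)) ≤
      g1.real {t | a < |t|} := by
    have h3 := Icc_ge (a + e / 4) (a + e / 2) (by positivity) (by linarith)
    have h4 : g1.real (Icc (a + e / 4) (a + e / 2)) ≤ g1.real {t | a < |t|} := by
      refine measureReal_mono ?_ (measure_ne_top _ _)
      intro t ht
      show a < |t|
      exact lt_of_lt_of_le (by linarith [ht.1]) (le_abs_self t)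
    have h5 : a + e / 2 - (a + e / 4) = e / 4 := by ring
    rw [h5] at h3
    exact h3.trans h4
  refine lt_of_lt_of_le ?_ hlow
  -- exponent
  have hexp : Real.exp (-((1 - 1 / a ^ 2) * (a + e) ^ 2 / 2)) ≤
      Real.exp ((1 + e) ^ 2 / 2) * Real.exp (-(e / 2 * a)) * Real.exp (-(a + e / 2) ^ 2 / 2) := by
    rw [← Real.exp_add, ← Real.exp_add, Real.exp_le_exp]
    have h6 : 1 / a ^ 2 * (a + e) ^ 2 ≤ (1 + e) ^ 2 := by
      rw [one_div, inv_mul_le_iff₀ (by positivity)]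
      have : a + e ≤ a * (1 + e) := by nlinarith
      calc (a + e) ^ 2 ≤ (a * (1 + e)) ^ 2 := by gcongr
        _ = a ^ 2 * (1 + e) ^ 2 := by ring
    nlinarith [sq_nonneg e]
  have hpos : 0 < Real.exp (-(a + e / 2) ^ 2 / 2) := Real.exp_pos _
  calc a ^ n * Real.exp (-((1 - 1 / a ^ 2) * (a + e) ^ 2 / 2))
      ≤ a ^ n * (Real.exp ((1 + e) ^ 2 / 2) * Real.exp (-(e / 2 * a)) *
          Real.exp (-(a + e / 2) ^ 2 / 2)) := by gcongr
    _ = (a ^ n * Real.exp (-(e / 2 * a))) * Real.exp ((1 + e) ^ 2 / 2) *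
          Real.exp (-(a + e / 2) ^ 2 / 2) := by ring
    _ < (e / 4 * (√(2 * Real.pi))⁻¹ * Real.exp (-((1 + e) ^ 2 / 2))) *
          Real.exp ((1 + e) ^ 2 / 2) * Real.exp (-(a + e / 2) ^ 2 / 2) := by
        gcongr
    _ = e / 4 * ((√(2 * Real.pi))⁻¹ * Real.exp (-(a + e / 2) ^ 2 / 2)) := by
        have : Real.exp (-((1 + e) ^ 2 / 2)) * Real.exp ((1 + e) ^ 2 / 2) = 1 := by
          rw [← Real.exp_add]; simp
        calc _ = e / 4 * (√(2 * Real.pi))⁻¹ * (Real.exp (-((1 + e) ^ 2 / 2)) *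
            Real.exp ((1 + e) ^ 2 / 2)) * Real.exp (-(a + e / 2) ^ 2 / 2) := by ring
          _ = _ := by rw [this]; ring

theorem prod_real {n : ℕ} (S T : Set (Fin n → ℝ)) :
    ((gam n).prod (gam n)).real (S ×ˢ T) = (gam n).real S * (gam n).real T := by
  unfold Measure.real
  rw [Measure.prod_prod, ENNReal.toReal_mul]

/-- upper bound for the strips -/
theorem strips_le (n : ℕ) [NeZero n] (ρ b a : ℝ) (h0 : 0 < ρ) (h1 : ρ < 1)
    (ha : ρ * b ≤ a) :
    corr ρ (strip n b) (strip n a)ᶜ ≤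
      2 * Real.exp (-((a - ρ * b) / √(1 - ρ ^ 2)) ^ 2 / 2) := by
  have hs : 0 < √(1 - ρ ^ 2) := Real.sqrt_pos.2 (by nlinarith)
  set s := √(1 - ρ ^ 2) with hsdef
  have hT : 0 ≤ (a - ρ * b) / s := div_nonneg (by linarith) hs.le
  have hsub : {p : (Fin n → ℝ) × (Fin n → ℝ) | p.1 ∈ strip n b ∧
      (fun i => ρ * p.1 i + s * p.2 i) ∈ (strip n a)ᶜ} ⊆
      univ ×ˢ {z | z 0 ∈ {t : ℝ | (a - ρ * b) / s ≤ |t|}} := by
    rintro ⟨x, z⟩ ⟨hx, hy⟩
    refine ⟨mem_univ _, ?_⟩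
    have hx' : |x 0| ≤ b := hx
    have hy' : a < |ρ * x 0 + s * z 0| := not_le.1 hy
    show (a - ρ * b) / s ≤ |z 0|
    rw [div_le_iff₀ hs]
    have h3 : |ρ * x 0 + s * z 0| ≤ ρ * |x 0| + s * |z 0| := by
      refine (abs_add_le _ _).trans ?_
      rw [abs_mul, abs_mul, abs_of_pos h0, abs_of_pos hs]
    nlinarith
  have hmeas : MeasurableSet {t : ℝ | (a - ρ * b) / s ≤ |t|} :=
    measurableSet_le measurable_const measurable_norm
  calc corr ρ (strip n b) (strip n a)ᶜ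
      ≤ ((gam n).prod (gam n)).real (univ ×ˢ {z | z 0 ∈ {t : ℝ | (a - ρ * b) / s ≤ |t|}}) :=
        measureReal_mono hsub
    _ = g1.real {t : ℝ | (a - ρ * b) / s ≤ |t|} := by
        rw [prod_real, marg 0 _ hmeas]; simp
    _ ≤ _ := tail_le _ hT

/-- lower bound for the balls -/
theorem balls_ge (n : ℕ) [NeZero n] (ρ r R q T d : ℝ) (D : Set (Fin n → ℝ)) (h0 : 0 < ρ)
    (h1 : ρ < 1) (hR : 0 ≤ R) (hD : D ⊆ ball n r) (hq : ∀ x ∈ D, q ≤ x 0)
    (hT : R < ρ * q + √(1 - ρ ^ 2) * T) :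
    (gam n).real D * g1.real (Icc T d) ≤ corr ρ (ball n r) (ball n R)ᶜ := by
  have hs : 0 < √(1 - ρ ^ 2) := Real.sqrt_pos.2 (by nlinarith)
  rw [← marg (n := n) 0 (Icc T d) measurableSet_Icc, ← prod_real]
  refine measureReal_mono ?_ (measure_ne_top _ _)
  rintro ⟨x, z⟩ ⟨hx, hz⟩
  refine ⟨hD hx, ?_⟩
  have hz' : T ≤ z 0 := hz.1
  have hx' := hq x hx
  show ¬ (∑ i, (ρ * x i + √(1 - ρ ^ 2) * z i) ^ 2 ≤ R ^ 2)
  rw [not_le]
  have h3 : R < ρ * x 0 + √(1 - ρ ^ 2) * z 0 := by nlinarith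
  have h4 : (ρ * x 0 + √(1 - ρ ^ 2) * z 0) ^ 2 ≤ ∑ i, (ρ * x i + √(1 - ρ ^ 2) * z i) ^ 2 :=
    Finset.single_le_sum (f := fun i => (ρ * x i + √(1 - ρ ^ 2) * z i) ^ 2)
      (fun i _ => sq_nonneg _) (Finset.mem_univ 0)
  have h5 : R ^ 2 < (ρ * x 0 + √(1 - ρ ^ 2) * z 0) ^ 2 := by nlinarith
  linarith

/-- the ball has a larger radius than the half-width of the strip of the same measure -/
theorem strip_lt_ball (n : ℕ) (hn : 2 ≤ n) (r b m : ℝ) (hr : 0 ≤ r)
    (hm0 : 0 < m) (hm1 : m < 1) (h1 : g1.real (Icc (-b) b) = m)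
    (h2 : (gam n).real (ball n r) = m) : b < r := by
  by_contra hbr
  rw [not_lt] at hbr
  have hsub : ball n r ⊆ Set.pi univ (fun _ : Fin n => Icc (-b) b) := by
    intro x hx i _
    have h3 : x i ^ 2 ≤ ∑ j, x j ^ 2 :=
      Finset.single_le_sum (f := fun j => x j ^ 2) (fun j _ => sq_nonneg _) (Finset.mem_univ i)
    have h4 : ∑ j, x j ^ 2 ≤ r ^ 2 := hx
    have h6 : |x i| ≤ b := by
      have : x i ^ 2 ≤ b ^ 2 := by nlinarith
      have hb : 0 ≤ b := hr.trans hbr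
      exact abs_le_of_sq_le_sq this hb
    exact abs_le.1 h6
  have h5 : (gam n).real (ball n r) ≤ m ^ n := by
    refine (measureReal_mono hsub).trans ?_
    rw [pi_real, Finset.prod_const, h1, Finset.card_univ, Fintype.card_fin]
  have h6 : m ^ n ≤ m ^ 2 := pow_le_pow_of_le_one hm0.le hm1.le hn
  nlinarith

end Pool.Agent.TH47.SG
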