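import Mathlib

/-! # One-dimensional Gaussian estimates -/

set_option autoImplicit false

open MeasureTheory ProbabilityTheory Set Filter Topology

namespace Pool.Agent.TH47.SG

/-- the standard normal law -/
noncomputable abbrev g1 : Measure ℝ := gaussianReal 0 1

theorem pdf_eq (x : ℝ) : gaussianPDFReal 0 1 x = (√(2 * Real.pi))⁻¹ * Real.exp (-x ^ 2 / 2) := by
  simp [gaussianPDFReal]

theorem g1_real (s : Set ℝ) : g1.real s = ∫ x in s, gaussianPDFReal 0 1 x := by
  unfold Measure.real g1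
  rw [gaussianReal_apply_eq_integral 0 one_ne_zero s, ENNReal.toReal_ofReal]
  exact integral_nonneg fun x => gaussianPDFReal_nonneg 0 1 x

/-- upper bound for the tail -/
theorem tail_le (T : ℝ) (hT : 0 ≤ T) : g1.real {t | T ≤ |t|} ≤ 2 * Real.exp (-T ^ 2 / 2) := by
  have h1 : g1.real {t | T ≤ id t} ≤ Real.exp (-T * T) * mgf id g1 T :=
    measure_ge_le_exp_mul_mgf T hT (integrable_exp_mul_gaussianReal T)
  have h2 : g1.real {t | id t ≤ -T} ≤ Real.exp (-(-T) * (-T)) * mgf id g1 (-T) :=
    measure_le_le_exp_mul_mgf (-T) (by linarith) (integrable_exp_mul_gaussianReal (-T))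
  have e1 : mgf id g1 T = Real.exp (T ^ 2 / 2) := by
    unfold g1; rw [mgf_id_gaussianReal]; simp
  have e2 : mgf id g1 (-T) = Real.exp (T ^ 2 / 2) := by
    unfold g1; rw [mgf_id_gaussianReal]; simp
  rw [e1, ← Real.exp_add] at h1
  rw [e2, ← Real.exp_add] at h2
  have e3 : -T * T + T ^ 2 / 2 = -T ^ 2 / 2 := by ring
  have e4 : -(-T) * (-T) + T ^ 2 / 2 = -T ^ 2 / 2 := by ring
  rw [e3] at h1
  rw [e4] at h2
  have hsub : {t : ℝ | T ≤ |t|} ⊆ {t | T ≤ id t} ∪ {t | id t ≤ -T} := by
    intro t ht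
    rcases le_abs.1 (show T ≤ |t| from ht) with h | h
    · left; exact h
    · right; show t ≤ -T; linarith
  calc g1.real {t | T ≤ |t|} ≤ g1.real ({t | T ≤ id t} ∪ {t | id t ≤ -T}) :=
        measureReal_mono hsub
    _ ≤ g1.real {t | T ≤ id t} + g1.real {t | id t ≤ -T} := measureReal_union_le _ _
    _ ≤ 2 * Real.exp (-T ^ 2 / 2) := by linarith

/-- lower bound for an interval -/
theorem Icc_ge (c d : ℝ) (hc : 0 ≤ c) (hcd : c ≤ d) :
    (d - c) * ((√(2 * Real.pi))⁻¹ * Real.exp (-d ^ 2 / 2)) ≤ g1.real (Icc c d) := by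
  rw [g1_real]
  have hv : (volume : Measure ℝ).real (Icc c d) = d - c := by
    rw [Measure.real, Real.volume_Icc, ENNReal.toReal_ofReal (by linarith)]
  have h := setIntegral_ge_of_const_le (μ := (volume : Measure ℝ)) (s := Icc c d)
    (f := gaussianPDFReal 0 1) (c := (√(2 * Real.pi))⁻¹ * Real.exp (-d ^ 2 / 2))
    measurableSet_Icc (by rw [Real.volume_Icc]; exact ENNReal.ofReal_ne_top)
    (fun x hx => by
      rw [pdf_eq]
      have h1 : x ^ 2 ≤ d ^ 2 := by nlinarith [hx.1, hx.2]
      have h2 : Real.exp (-d ^ 2 / 2) ≤ Real.exp (-x ^ 2 / 2) := Real.exp_le_exp.2 (by linarith)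
      exact mul_le_mul_of_nonneg_left h2 (by positivity))
    (integrable_gaussianPDFReal 0 1).integrableOn
  rw [hv, smul_eq_mul] at h
  exact h

theorem Icc_pos (c d : ℝ) (hcd : c < d) : 0 < g1.real (Icc c d) := by
  have h1 : g1.real (Icc c d) ≠ 0 := by
    rw [Measure.real, ENNReal.toReal_ne_zero]
    refine ⟨fun h => ?_, measure_ne_top _ _⟩
    have h2 := gaussianReal_absolutelyContinuous' 0 (v := 1) one_ne_zero h
    rw [Real.volume_Icc, ENNReal.ofReal_eq_zero] at h2
    linarith
  exact lt_of_le_of_ne measureReal_nonneg (Ne.symm h1)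

/-- existence of symmetric intervals of given measure -/
theorem exists_Icc (m : ℝ) (h0 : 0 < m) (h1 : m < 1) : ∃ b : ℝ, 0 < b ∧ g1.real (Icc (-b) b) = m := by
  set G : ℝ → ℝ := fun b => ∫ x in (-b)..b, gaussianPDFReal 0 1 x with hG
  have hint : ∀ a b : ℝ, IntervalIntegrable (gaussianPDFReal 0 1) volume a b := fun a b =>
    (integrable_gaussianPDFReal 0 1).intervalIntegrable
  have hcont : Continuous G := by
    have hp : Continuous (fun b : ℝ => ∫ x in (0 : ℝ)..b, gaussianPDFReal 0 1 x) :=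
      intervalIntegral.continuous_primitive hint 0
    have e : G = fun b => (∫ x in (0 : ℝ)..b, gaussianPDFReal 0 1 x) -
        ∫ x in (0 : ℝ)..(-b), gaussianPDFReal 0 1 x := by
      funext b
      rw [hG]
      simp only
      rw [intervalIntegral.integral_interval_sub_left (hint _ _) (hint _ _)]
    rw [e]
    exact hp.sub (hp.comp continuous_neg)
  have hlim : Tendsto G atTop (𝓝 1) := by
    have := intervalIntegral_tendsto_integral (μ := volume) (l := atTop)
      (f := gaussianPDFReal 0 1) (a := fun b : ℝ => -b) (b := fun b : ℝ => b)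
      (integrable_gaussianPDFReal 0 1) tendsto_neg_atTop_atBot tendsto_id
    rwa [integral_gaussianPDFReal_eq_one 0 one_ne_zero] at this
  obtain ⟨B, hB1, hB2⟩ := ((hlim.eventually (lt_mem_nhds h1)).and (eventually_gt_atTop 0)).exists
  have hG0 : G 0 = 0 := by simp [hG]
  have := intermediate_value_Icc hB2.le hcont.continuousOn
  obtain ⟨b, hb, hbm⟩ := this (show m ∈ Icc (G 0) (G B) by rw [hG0]; exact ⟨h0.le, hB1.le⟩)
  have hb0 : 0 < b := by
    rcases eq_or_lt_of_le hb.1 with h | h
    · rw [← h, hG0] at hbm; linarith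
    · exact h
  refine ⟨b, hb0, ?_⟩
  rw [g1_real, integral_Icc_eq_integral_Ioc, ← intervalIntegral.integral_of_le (by linarith)]
  exact hbm

theorem compl_real (a : ℝ) : g1.real {t | a < |t|} = 1 - g1.real (Icc (-a) a) := by
  have e : {t : ℝ | a < |t|} = (Icc (-a) a)ᶜ := by
    ext t
    rw [mem_compl_iff, mem_Icc, ← abs_le]
    exact (not_le (a := |t|) (b := a)).symm
  rw [e, measureReal_compl measurableSet_Icc]
  simp

/-- a Gaussian exponential moment -/
theorem exp_moment (a : ℝ) (ha : 0 < a) :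
    Integrable (fun x : ℝ => Real.exp ((1 - 1 / a ^ 2) * x ^ 2 / 2)) g1 ∧
    ∫ x, Real.exp ((1 - 1 / a ^ 2) * x ^ 2 / 2) ∂g1 = a := by
  have e : ∀ x : ℝ, gaussianPDFReal 0 1 x * Real.exp ((1 - 1 / a ^ 2) * x ^ 2 / 2) =
      (√(2 * Real.pi))⁻¹ * Real.exp (-(1 / (2 * a ^ 2)) * x ^ 2) := by
    intro x
    rw [pdf_eq, mul_assoc, ← Real.exp_add]
    congr 2
    field_simp
    ring
  have hb : 0 < 1 / (2 * a ^ 2) := by positivity
  constructor
  · unfold g1
    rw [gaussianReal_of_var_ne_zero 0 one_ne_zero, integrable_withDensity_iff_integrable_smul']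
    · have : Integrable (fun x : ℝ => (√(2 * Real.pi))⁻¹ * Real.exp (-(1 / (2 * a ^ 2)) * x ^ 2)) :=
        (integrable_exp_neg_mul_sq hb).const_mul _
      refine this.congr (Eventually.of_forall fun x => ?_)
      simp only [toReal_gaussianPDF, smul_eq_mul]
      exact (e x).symm
    · exact measurable_gaussianPDF 0 1
    · exact Eventually.of_forall fun x => gaussianPDF_lt_top
  · unfold g1
    rw [integral_gaussianReal_eq_integral_smul one_ne_zero]
    simp only [smul_eq_mul, e]
    rw [integral_const_mul, integral_gaussian]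
    have : Real.pi / (1 / (2 * a ^ 2)) = (2 * Real.pi) * a ^ 2 := by field_simp
    have e2 : √(2 * Real.pi * a ^ 2) = √(2 * Real.pi) * a := by
      rw [Real.sqrt_mul (by positivity) (a ^ 2), Real.sqrt_sq ha.le]
    rw [this, e2, ← mul_assoc, inv_mul_cancel₀ (by positivity), one_mul]

end Pool.Agent.TH47.SG
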