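import Pool.Agent.TH47.SG.RevFinal

/-! # Balls of every Gaussian measure -/

set_option autoImplicit false

open MeasureTheory ProbabilityTheory Set Filter Topology

namespace Pool.Agent.TH47.SG

/-- spheres are null sets -/
theorem sphere_null (n : ℕ) [NeZero n] (c : ℝ) : gam n {x | ∑ i, x i ^ 2 = c} = 0 := by
  obtain ⟨m, rfl⟩ : ∃ m, n = m + 1 := ⟨n - 1, (Nat.succ_pred (NeZero.ne n)).symm⟩
  have hmp := measurePreserving_piFinSuccAbove (fun _ : Fin (m + 1) => gaussianReal 0 1) 0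
  have hS : MeasurableSet {p : ℝ × (Fin m → ℝ) | p.1 ^ 2 + ∑ i, p.2 i ^ 2 = c} :=
    measurableSet_eq_fun (by fun_prop) measurable_const
  have e : {x : Fin (m + 1) → ℝ | ∑ i, x i ^ 2 = c} =
      (MeasurableEquiv.piFinSuccAbove (fun _ : Fin (m + 1) => ℝ) 0) ⁻¹'
        {p : ℝ × (Fin m → ℝ) | p.1 ^ 2 + ∑ i, p.2 i ^ 2 = c} := by
    ext x
    show ∑ i, x i ^ 2 = c ↔ x 0 ^ 2 + ∑ i : Fin m, x ((0 : Fin (m + 1)).succAbove i) ^ 2 = c
    rw [Fin.sum_univ_succ]
    simp only [Fin.zero_succAbove]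
  unfold gam
  rw [e, hmp.measure_preimage hS.nullMeasurableSet, Measure.prod_apply_symm hS,
    lintegral_eq_zero_of_ae_eq_zero]
  refine Eventually.of_forall fun w => ?_
  show gaussianReal 0 1 ((fun x => (x, w)) ⁻¹' {p : ℝ × (Fin m → ℝ) | p.1 ^ 2 + ∑ i, p.2 i ^ 2 = c}) = 0
  have hfin : ((fun x => (x, w)) ⁻¹' {p : ℝ × (Fin m → ℝ) | p.1 ^ 2 + ∑ i, p.2 i ^ 2 = c}) ⊆
      ({√(c - ∑ i, w i ^ 2), -√(c - ∑ i, w i ^ 2)} : Set ℝ) := by
    intro x hx
    have h1 : x ^ 2 + ∑ i, w i ^ 2 = c := hx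
    have h2 : x ^ 2 = c - ∑ i, w i ^ 2 := by linarith
    rw [← h2, Real.sqrt_sq_eq_abs]
    rcases abs_choice x with h | h
    · left; exact h.symm
    · right; show x = -|x|; rw [h]; ring
  have hna : NullSingletonClass (gaussianReal 0 1) := nullSingletonClass_gaussianReal one_ne_zero
  exact measure_mono_null hfin ((Set.toFinite _).measure_zero _)

theorem cont_ball (n : ℕ) [NeZero n] : Continuous fun r : ℝ => (gam n).real (ball n r) := by
  have hprob : IsProbabilityMeasure (gam n) := by unfold gam; infer_instance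
  have e : (fun r : ℝ => (gam n).real (ball n r)) =
      fun r => ∫ x, (ball n r).indicator (fun _ => (1 : ℝ)) x ∂(gam n) := by
    funext r
    exact (integral_indicator_one (meas_ball n r)).symm
  rw [e, continuous_iff_continuousAt]
  intro r0
  refine continuousAt_of_dominated (bound := fun _ => 1) ?_ ?_ (integrable_const _) ?_
  · exact Eventually.of_forall fun r =>
      (aestronglyMeasurable_const.indicator (meas_ball n r))
  · refine Eventually.of_forall fun r => Eventually.of_forall fun x => ?_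
    by_cases h : x ∈ ball n r <;> simp [h]
  · have hnull := sphere_null n (r0 ^ 2)
    have hae : ∀ᵐ x ∂(gam n), ¬ (∑ i, x i ^ 2 = r0 ^ 2) := by
      rw [ae_iff]
      simpa using hnull
    filter_upwards [hae] with x hx
    rcases lt_or_gt_of_ne hx with h | h
    · have h2 : ∀ᶠ r : ℝ in 𝓝 r0, ∑ i, x i ^ 2 < r ^ 2 :=
        (continuous_pow 2).continuousAt.eventually (lt_mem_nhds h)
      have h3 : (fun r => (ball n r).indicator (fun _ => (1 : ℝ)) x) =ᶠ[𝓝 r0] fun _ => 1 := by
        filter_upwards [h2] with r hr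
        have hm : x ∈ ball n r := hr.le
        exact indicator_of_mem hm _
      exact continuousAt_const.congr h3.symm
    · have h2 : ∀ᶠ r : ℝ in 𝓝 r0, r ^ 2 < ∑ i, x i ^ 2 :=
        (continuous_pow 2).continuousAt.eventually (gt_mem_nhds h)
      have h3 : (fun r => (ball n r).indicator (fun _ => (1 : ℝ)) x) =ᶠ[𝓝 r0] fun _ => 0 := by
        filter_upwards [h2] with r hr
        have hm : x ∉ ball n r := fun h4 => absurd hr (not_lt.2 h4)
        exact indicator_of_notMem hm _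
      exact continuousAt_const.congr h3.symm

theorem exists_unique_ball (n : ℕ) [NeZero n] (m : ℝ) (h0 : 0 < m) (h1 : m < 1) :
    ∃! r : ℝ, 0 < r ∧ (gam n).real (ball n r) = m := by
  have hprob : IsProbabilityMeasure (gam n) := by unfold gam; infer_instance
  have hmono : Monotone fun k : ℕ => ball n (k : ℝ) := by
    intro k l hkl x hx
    have h2 : ∑ i, x i ^ 2 ≤ (k : ℝ) ^ 2 := hx
    have h3 : (k : ℝ) ≤ l := by exact_mod_cast hkl
    show ∑ i, x i ^ 2 ≤ (l : ℝ) ^ 2
    have h4 : (0 : ℝ) ≤ k := Nat.cast_nonneg k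
    nlinarith
  have hun : (⋃ k : ℕ, ball n (k : ℝ)) = univ := by
    refine eq_univ_of_forall fun x => ?_
    obtain ⟨k, hk⟩ := exists_nat_ge (√(∑ i, x i ^ 2))
    refine mem_iUnion.2 ⟨k, ?_⟩
    show ∑ i, x i ^ 2 ≤ (k : ℝ) ^ 2
    exact (Real.sqrt_le_left (Nat.cast_nonneg k)).1 hk
  have hlim : Tendsto (fun k : ℕ => (gam n).real (ball n (k : ℝ))) atTop (𝓝 1) := by
    have h2 := tendsto_measure_iUnion_atTop (μ := gam n) hmono
    rw [hun, measure_univ] at h2
    have h3 := (ENNReal.tendsto_toReal ENNReal.one_ne_top).comp h2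
    rw [ENNReal.toReal_one] at h3
    exact h3
  obtain ⟨K, hK⟩ := (hlim.eventually (lt_mem_nhds h1)).exists
  have hz : (gam n).real (ball n 0) = 0 := by
    have h2 : gam n (ball n 0) = 0 := by
      refine measure_mono_null ?_ (sphere_null n 0)
      intro x hx
      have h3 : ∑ i, x i ^ 2 ≤ (0 : ℝ) ^ 2 := hx
      have h4 : 0 ≤ ∑ i, x i ^ 2 := Finset.sum_nonneg fun i _ => sq_nonneg _
      show ∑ i, x i ^ 2 = 0
      nlinarith
    rw [Measure.real, h2]; rfl
  have hivt := intermediate_value_Icc (Nat.cast_nonneg K : (0 : ℝ) ≤ K) (cont_ball n).continuousOn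
  obtain ⟨r, hr, hrm⟩ := hivt (show m ∈ Icc ((gam n).real (ball n 0)) ((gam n).real (ball n K)) by
    rw [hz]; exact ⟨h0.le, hK.le⟩)
  have hrm' : (gam n).real (ball n r) = m := hrm
  have hr0 : 0 < r := by
    rcases eq_or_lt_of_le hr.1 with h | h
    · rw [← h, hz] at hrm'; linarith
    · exact h
  refine ⟨r, ⟨hr0, hrm'⟩, ?_⟩
  rintro s ⟨hs0, hs⟩
  rcases lt_trichotomy s r with h | h | h
  · have := ball_strict n s r hs0.le h
    linarith
  · exact h
  · have := ball_strict n r s hr0.le h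
    linarith

end Pool.Agent.TH47.SG
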