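import Pool.Agent.TH47.SG.Final

/-! # The other orientation: complement of a ball against a small ball -/

set_option autoImplicit false

open MeasureTheory ProbabilityTheory Set Filter Topology

namespace Pool.Agent.TH47.SG

/-- lower bound for an arbitrary interval -/
theorem Icc_ge' (c d M : ℝ) (hcd : c ≤ d) (h1 : -M ≤ c) (h2 : d ≤ M) :
    (d - c) * ((√(2 * Real.pi))⁻¹ * Real.exp (-M ^ 2 / 2)) ≤ g1.real (Icc c d) := by
  rw [g1_real]
  have hv : (volume : Measure ℝ).real (Icc c d) = d - c := by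
    rw [Measure.real, Real.volume_Icc, ENNReal.toReal_ofReal (by linarith)]
  have h := setIntegral_ge_of_const_le (μ := (volume : Measure ℝ)) (s := Icc c d)
    (f := gaussianPDFReal 0 1) (c := (√(2 * Real.pi))⁻¹ * Real.exp (-M ^ 2 / 2))
    measurableSet_Icc (by rw [Real.volume_Icc]; exact ENNReal.ofReal_ne_top)
    (fun x hx => by
      rw [pdf_eq]
      have h3 : x ^ 2 ≤ M ^ 2 := by nlinarith [hx.1, hx.2]
      have h4 : Real.exp (-M ^ 2 / 2) ≤ Real.exp (-x ^ 2 / 2) := Real.exp_le_exp.2 (by linarith)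
      exact mul_le_mul_of_nonneg_left h4 (by positivity))
    (integrable_gaussianPDFReal 0 1).integrableOn
  rw [hv, smul_eq_mul] at h
  exact h

/-- upper bound for an interval -/
theorem Icc_le (c d : ℝ) (hcd : c ≤ d) : g1.real (Icc c d) ≤ d - c := by
  rw [g1_real]
  have hv : (volume : Measure ℝ).real (Icc c d) = d - c := by
    rw [Measure.real, Real.volume_Icc, ENNReal.toReal_ofReal (by linarith)]
  have h := norm_setIntegral_le_of_norm_le_const (μ := (volume : Measure ℝ)) (s := Icc c d)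
    (f := gaussianPDFReal 0 1) (C := 1) (by rw [Real.volume_Icc]; exact ENNReal.ofReal_lt_top)
    (fun x _ => by
      rw [Real.norm_eq_abs, abs_of_nonneg (gaussianPDFReal_nonneg 0 1 x), pdf_eq]
      have h1 : Real.exp (-x ^ 2 / 2) ≤ 1 := Real.exp_le_one_iff.2 (by nlinarith [sq_nonneg x])
      have h2 : (√(2 * Real.pi))⁻¹ ≤ 1 := by
        apply inv_le_one_of_one_le₀
        rw [Real.one_le_sqrt]
        have := Real.pi_gt_three
        linarith
      have h3 : 0 < (√(2 * Real.pi))⁻¹ := by positivity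
      have h4 := Real.exp_pos (-x ^ 2 / 2)
      nlinarith)
  rw [hv, one_mul] at h
  exact (le_abs_self _).trans h

/-- the probability that a correlated Gaussian hits a small ball -/
theorem rev_ge (n : ℕ) [NeZero n] (ρ r : ℝ) (h0 : 0 < ρ) (h1 : ρ < 1) (hr : 0 ≤ r) :
    ∃ c : ℝ, 0 < c ∧ ∀ t : ℝ, 0 < t → t ≤ 1 →
      c * (gam n).real (ball n t) ≤ corr ρ (ball n r)ᶜ (ball n t) := by
  have hn : (0 : ℝ) < n := by exact_mod_cast Nat.pos_of_ne_zero (NeZero.ne n)
  have hn1 : (1 : ℝ) ≤ n := by exact_mod_cast Nat.pos_of_ne_zero (NeZero.ne n)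
  have hs : 0 < √(1 - ρ ^ 2) := Real.sqrt_pos.2 (by nlinarith)
  set s := √(1 - ρ ^ 2) with hsdef
  set M : ℝ := (ρ * (r + 2) + 1) / s with hM
  -- the box of points `x`
  set E : Set (Fin n → ℝ) := Set.pi univ (fun _ => Icc (r + 1) (r + 2)) with hE
  have hE0 : 0 < (gam n).real E := by
    rw [hE, pi_real]
    exact Finset.prod_pos fun i _ => Icc_pos _ _ (by linarith)
  set κ : ℝ := 2 / (n * s) * ((√(2 * Real.pi))⁻¹ * Real.exp (-M ^ 2 / 2)) with hκ
  have hκ0 : 0 < κ := by positivity
  refine ⟨(gam n).real E * (κ / 2) ^ n, by positivity, ?_⟩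
  intro t ht0 ht1
  -- the small ball
  have hball : (gam n).real (ball n t) ≤ (2 * t) ^ n := by
    have hsub : ball n t ⊆ Set.pi univ (fun _ : Fin n => Icc (-t) t) := by
      intro x hx i _
      have h3 : x i ^ 2 ≤ ∑ j, x j ^ 2 :=
        Finset.single_le_sum (f := fun j => x j ^ 2) (fun j _ => sq_nonneg _) (Finset.mem_univ i)
      have h4 : ∑ j, x j ^ 2 ≤ t ^ 2 := hx
      exact abs_le.1 (abs_le_of_sq_le_sq (by nlinarith) ht0.le)
    refine (measureReal_mono hsub (measure_ne_top _ _)).trans ?_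
    rw [pi_real, Finset.prod_const, Finset.card_univ, Fintype.card_fin]
    have := Icc_le (-t) t (by linarith)
    have e : t - -t = 2 * t := by ring
    rw [e] at this
    gcongr
  -- the fibre
  have hfib : ∀ x ∈ E, ENNReal.ofReal ((κ * t) ^ n) ≤
      (gam n) (Prod.mk x ⁻¹' {p : (Fin n → ℝ) × (Fin n → ℝ) | p.1 ∈ (ball n r)ᶜ ∧
        (fun i => ρ * p.1 i + s * p.2 i) ∈ ball n t}) := by
    intro x hx
    have hx1 : x ∈ (ball n r)ᶜ := by
      have h3 : x 0 ^ 2 ≤ ∑ j, x j ^ 2 :=
        Finset.single_le_sum (f := fun j => x j ^ 2) (fun j _ => sq_nonneg _) (Finset.mem_univ 0)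
      have h4 := (hx 0 (mem_univ _)).1
      show ¬ (∑ i, x i ^ 2 ≤ r ^ 2)
      rw [not_le]
      nlinarith
    have hsub : Set.pi univ (fun i : Fin n => Icc ((-(ρ * x i) - t / n) / s)
        ((-(ρ * x i) + t / n) / s)) ⊆
        Prod.mk x ⁻¹' {p : (Fin n → ℝ) × (Fin n → ℝ) | p.1 ∈ (ball n r)ᶜ ∧
        (fun i => ρ * p.1 i + s * p.2 i) ∈ ball n t} := by
      intro z hz
      refine ⟨hx1, ?_⟩
      show ∑ i, (ρ * x i + s * z i) ^ 2 ≤ t ^ 2
      have h5 : ∀ i : Fin n, (ρ * x i + s * z i) ^ 2 ≤ (t / n) ^ 2 := by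
        intro i
        have h6 := hz i (mem_univ _)
        have h7 : -(ρ * x i) - t / n ≤ z i * s := (div_le_iff₀ hs).1 h6.1
        have h8 : z i * s ≤ -(ρ * x i) + t / n := (le_div_iff₀ hs).1 h6.2
        have h9 : 0 < t / n := by positivity
        nlinarith
      calc ∑ i, (ρ * x i + s * z i) ^ 2 ≤ ∑ i : Fin n, (t / n) ^ 2 :=
            Finset.sum_le_sum fun i _ => h5 i
        _ = t ^ 2 / n := by
            rw [Finset.sum_const, Finset.card_univ, Fintype.card_fin, nsmul_eq_mul]
            field_simp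
        _ ≤ t ^ 2 := by
            rw [div_le_iff₀ hn]
            nlinarith [sq_nonneg t]
    refine le_trans ?_ (measure_mono hsub)
    have h10 : (κ * t) ^ n ≤ (gam n).real (Set.pi univ (fun i : Fin n =>
        Icc ((-(ρ * x i) - t / n) / s) ((-(ρ * x i) + t / n) / s))) := by
      rw [pi_real]
      have : ∀ i ∈ (Finset.univ : Finset (Fin n)), κ * t ≤ g1.real
          (Icc ((-(ρ * x i) - t / n) / s) ((-(ρ * x i) + t / n) / s)) := by
        intro i _
        have hxi := hx i (mem_univ _)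
        have htn : t / n ≤ 1 := by
          rw [div_le_one hn]; linarith
        have htn0 : 0 < t / n := by positivity
        have h11 := Icc_ge' ((-(ρ * x i) - t / n) / s) ((-(ρ * x i) + t / n) / s) M
          (by apply div_le_div_of_nonneg_right _ hs.le; linarith)
          (by
            rw [hM, ← neg_div]
            apply div_le_div_of_nonneg_right _ hs.le
            nlinarith [hxi.2])
          (by
            rw [hM]
            apply div_le_div_of_nonneg_right _ hs.le
            nlinarith [hxi.1])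
        refine le_trans (le_of_eq ?_) h11
        rw [hκ]
        field_simp
        ring
      calc (κ * t) ^ n = ∏ i : Fin n, κ * t := by simp
        _ ≤ _ := Finset.prod_le_prod (fun i _ => by positivity) this
    rw [Measure.real] at h10
    exact (ENNReal.ofReal_le_iff_le_toReal (measure_ne_top _ _)).2 h10
  -- measurability
  have hS : MeasurableSet {p : (Fin n → ℝ) × (Fin n → ℝ) | p.1 ∈ (ball n r)ᶜ ∧
        (fun i => ρ * p.1 i + s * p.2 i) ∈ ball n t} := by
    refine MeasurableSet.inter ?_ ?_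
    · exact measurable_fst (meas_ball n r).compl
    · refine (show Measurable (fun p : (Fin n → ℝ) × (Fin n → ℝ) =>
        (fun i => ρ * p.1 i + s * p.2 i)) from ?_) (meas_ball n t)
      fun_prop
  have hmain : ENNReal.ofReal ((κ * t) ^ n) * (gam n) E ≤ ((gam n).prod (gam n))
      {p : (Fin n → ℝ) × (Fin n → ℝ) | p.1 ∈ (ball n r)ᶜ ∧
        (fun i => ρ * p.1 i + s * p.2 i) ∈ ball n t} := by
    rw [Measure.prod_apply hS]
    calc ENNReal.ofReal ((κ * t) ^ n) * (gam n) E
        = ∫⁻ _ in E, ENNReal.ofReal ((κ * t) ^ n) ∂(gam n) := by rw [setLIntegral_const]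
      _ ≤ ∫⁻ x in E, (gam n) (Prod.mk x ⁻¹' {p : (Fin n → ℝ) × (Fin n → ℝ) |
            p.1 ∈ (ball n r)ᶜ ∧ (fun i => ρ * p.1 i + s * p.2 i) ∈ ball n t}) ∂(gam n) := by
          apply setLIntegral_mono' _ hfib
          exact MeasurableSet.univ_pi fun i => measurableSet_Icc
      _ ≤ _ := setLIntegral_le_lintegral _ _
  have hmain' : (κ * t) ^ n * (gam n).real E ≤ corr ρ (ball n r)ᶜ (ball n t) := by
    have h12 := ENNReal.toReal_mono (measure_ne_top _ _) hmain
    rw [ENNReal.toReal_mul, ENNReal.toReal_ofReal (by positivity)] at h12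
    exact h12
  calc (gam n).real E * (κ / 2) ^ n * (gam n).real (ball n t)
      ≤ (gam n).real E * (κ / 2) ^ n * (2 * t) ^ n := by gcongr
    _ = (κ * t) ^ n * (gam n).real E := by
        rw [mul_assoc, ← mul_pow]
        have : κ / 2 * (2 * t) = κ * t := by ring
        rw [this, mul_comm]
    _ ≤ _ := hmain'

end Pool.Agent.TH47.SG
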