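import Pool.Agent.TH47.SG.Rev

/-! # Strips beat the other orientation -/

set_option autoImplicit false

open MeasureTheory ProbabilityTheory Set Filter Topology

namespace Pool.Agent.TH47.SG

theorem strips_beat_rev (n : ℕ) [NeZero n] (ρ r : ℝ) (h0 : 0 < ρ) (h1 : ρ < 1) (hr : 0 < r) :
    ∃ ν0 : ℝ, 0 < ν0 ∧ ∀ t : ℝ, 0 < t → (gam n).real (ball n t) < ν0 →
      ∃ b a : ℝ, (gam n).real (strip n b) = (gam n).real (ball n r)ᶜ ∧
        (gam n).real (strip n a)ᶜ = (gam n).real (ball n t) ∧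
        corr ρ (strip n b) (strip n a)ᶜ < corr ρ (ball n r)ᶜ (ball n t) := by
  set m := (gam n).real (ball n r)ᶜ with hm
  have hm0 : 0 < m := coball_real_pos n r hr.le
  have hm1 : m < 1 := by
    have h2 := ball_real_pos n r hr
    rw [hm, coball_real]
    linarith
  obtain ⟨b, hb0, hb⟩ := exists_Icc m hm0 hm1
  have hs : 0 < √(1 - ρ ^ 2) := Real.sqrt_pos.2 (by nlinarith)
  have hs1 : √(1 - ρ ^ 2) < 1 := by
    rw [Real.sqrt_lt' one_pos]; nlinarith
  obtain ⟨c, hc0, hc⟩ := rev_ge n ρ r h0 h1 hr.le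
  set s := √(1 - ρ ^ 2) with hsdef
  set C := c * (1 / 2 * (√(2 * Real.pi))⁻¹) with hC
  have hC0 : 0 < C := by positivity
  have hu : 0 < 1 / s - 1 := by
    rw [sub_pos, lt_div_iff₀ hs]; linarith
  have hT : Tendsto (fun a : ℝ => ((a - ρ * b) / s - a - 1) / 2) atTop atTop := by
    have e : (fun a : ℝ => ((a - ρ * b) / s - a - 1) / 2) =
        fun a => (1 / s - 1) / 2 * a + (-(ρ * b) / s - 1) / 2 := by
      funext a; ring
    rw [e]
    exact tendsto_atTop_add_const_right _ _ (tendsto_id.const_mul_atTop (by positivity))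
  have hlim : Tendsto (fun a : ℝ => 2 * Real.exp (-(((a - ρ * b) / s - a - 1) / 2)))
      atTop (𝓝 0) := by
    have := (Real.tendsto_exp_neg_atTop_nhds_zero.comp hT).const_mul 2
    rwa [mul_zero] at this
  have hev := ((hlim.eventually (gt_mem_nhds hC0)).and (hT.eventually_ge_atTop 0)).and
    (eventually_ge_atTop (max 1 (ρ * b)))
  obtain ⟨a0, ha0⟩ := eventually_atTop.1 hev
  have ha00 : 1 ≤ a0 := (le_max_left _ _).trans (ha0 a0 le_rfl).2
  have hpos0 : 0 < g1.real {t | a0 < |t|} := by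
    have := Icc_pos (a0 + 1) (a0 + 2) (by linarith)
    refine this.trans_le (measureReal_mono ?_ (measure_ne_top _ _))
    intro t ht
    exact lt_of_lt_of_le (by linarith [ht.1]) (le_abs_self t)
  refine ⟨min (g1.real {t | a0 < |t|}) ((gam n).real (ball n 1)),
    lt_min hpos0 (ball_real_pos n 1 one_pos), ?_⟩
  intro t ht hν
  set ν := (gam n).real (ball n t) with hνdef
  have hν0 : 0 < ν := ball_real_pos n t ht
  have hν1 : ν < 1 := by
    have h2 := coball_real_pos n t ht.le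
    rw [coball_real] at h2
    linarith
  have ht1 : t ≤ 1 := by
    by_contra hlt
    rw [not_le] at hlt
    have : (gam n).real (ball n 1) ≤ ν := by
      refine measureReal_mono ?_ (measure_ne_top _ _)
      intro x hx
      have h5 : ∑ i, x i ^ 2 ≤ 1 ^ 2 := hx
      show ∑ i, x i ^ 2 ≤ t ^ 2
      nlinarith
    linarith [hν.trans_le (min_le_right _ _)]
  obtain ⟨a, ha, hga⟩ := exists_Icc (1 - ν) (by linarith) (by linarith)
  have hga' : g1.real {t | a < |t|} = ν := by rw [compl_real, hga]; ring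
  have haa : a0 ≤ a := by
    by_contra hlt
    rw [not_le] at hlt
    have : g1.real {t | a0 < |t|} ≤ g1.real {t | a < |t|} :=
      measureReal_mono (fun t ht => lt_trans hlt ht) (measure_ne_top _ _)
    linarith [hν.trans_le (min_le_left _ _)]
  obtain ⟨⟨hl1, hl2⟩, hl3⟩ := ha0 a haa
  have ha1 : 1 ≤ a := (le_max_left _ _).trans hl3
  have hρb : ρ * b ≤ a := (le_max_right _ _).trans hl3
  have hmes : (gam n).real (strip n a)ᶜ = ν := by
    rw [measureReal_compl (meas_strip n a), strip_real, hga]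
    simp
  refine ⟨b, a, by rw [strip_real, hb], hmes, ?_⟩
  have hup := strips_le n ρ b a h0 h1 hρb
  rw [← hsdef] at hup
  set T1 := (a - ρ * b) / s with hT1
  refine hup.trans_lt (lt_of_lt_of_le ?_ (hc t ht ht1))
  have hlow : 1 / 2 * ((√(2 * Real.pi))⁻¹ * Real.exp (-(a + 1) ^ 2 / 2)) ≤ ν := by
    have h3 := Icc_ge (a + 1 / 2) (a + 1) (by linarith) (by linarith)
    have h4 : g1.real (Icc (a + 1 / 2) (a + 1)) ≤ g1.real {t | a < |t|} := by
      refine measureReal_mono ?_ (measure_ne_top _ _)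
      intro t ht
      exact lt_of_lt_of_le (by linarith [ht.1]) (le_abs_self t)
    have h5 : a + 1 - (a + 1 / 2) = 1 / 2 := by ring
    rw [h5] at h3
    rw [← hga']
    exact h3.trans h4
  have h6 : C * Real.exp (-(a + 1) ^ 2 / 2) ≤ c * ν := by
    rw [hC]
    calc c * (1 / 2 * (√(2 * Real.pi))⁻¹) * Real.exp (-(a + 1) ^ 2 / 2)
        = c * (1 / 2 * ((√(2 * Real.pi))⁻¹ * Real.exp (-(a + 1) ^ 2 / 2))) := by ring
      _ ≤ c * ν := mul_le_mul_of_nonneg_left hlow hc0.le
  refine lt_of_lt_of_le ?_ h6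
  have h7 : Real.exp (-T1 ^ 2 / 2) ≤
      Real.exp (-((T1 - a - 1) / 2)) * Real.exp (-(a + 1) ^ 2 / 2) := by
    rw [← Real.exp_add, Real.exp_le_exp]
    have h8 : 0 ≤ T1 - a - 1 := by linarith
    nlinarith [mul_nonneg h8 (by linarith : (0 : ℝ) ≤ T1 + a + 1 - 1)]
  calc 2 * Real.exp (-T1 ^ 2 / 2)
      ≤ 2 * (Real.exp (-((T1 - a - 1) / 2)) * Real.exp (-(a + 1) ^ 2 / 2)) := by gcongr
    _ = (2 * Real.exp (-((T1 - a - 1) / 2))) * Real.exp (-(a + 1) ^ 2 / 2) := by ring
    _ < C * Real.exp (-(a + 1) ^ 2 / 2) := mul_lt_mul_of_pos_right hl1 (Real.exp_pos _)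

/-- balls of different radii have different measures -/
theorem ball_strict (n : ℕ) [NeZero n] (r r' : ℝ) (hr : 0 ≤ r) (hrr : r < r') :
    (gam n).real (ball n r) < (gam n).real (ball n r') := by
  obtain ⟨D, hD0, hD1, hD2⟩ := cap n r' ((r' - r) / 4) (by linarith) (by linarith)
  have hdis : Disjoint (ball n r) D := by
    rw [Set.disjoint_left]
    intro x hx hxD
    have h1 := hD2 x hxD
    have h2 : ∑ i, x i ^ 2 ≤ r ^ 2 := hx
    have h3 : x 0 ^ 2 ≤ ∑ i, x i ^ 2 :=
      Finset.single_le_sum (f := fun i => x i ^ 2) (fun i _ => sq_nonneg _) (Finset.mem_univ 0)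
    nlinarith
  have hsub : ball n r ∪ D ⊆ ball n r' := by
    refine union_subset ?_ hD1
    intro x hx
    have h2 : ∑ i, x i ^ 2 ≤ r ^ 2 := hx
    show ∑ i, x i ^ 2 ≤ r' ^ 2
    nlinarith
  have h4 : (gam n).real (ball n r ∪ D) = (gam n).real (ball n r) + (gam n).real D :=
    measureReal_union' hdis (meas_ball n r)
  have h5 : (gam n).real (ball n r ∪ D) ≤ (gam n).real (ball n r') :=
    measureReal_mono hsub (measure_ne_top _ _)
  linarith

end Pool.Agent.TH47.SG
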