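import Pool.Agent.TH47.SG.RevFinal
import Pool.Agent.TH347.DFM.Law

/-! # `P[x ∈ A, y ∈ B]` is symmetric in `A` and `B` -/

set_option autoImplicit false

open MeasureTheory ProbabilityTheory Set Filter Topology

namespace Pool.Agent.TH47.SG

/-- the reflection with rows `(ρ, s)` and `(s, -ρ)` in every coordinate -/
noncomputable def refl (n : ℕ) (ρ s : ℝ) : (Fin n ⊕ Fin n) → (Fin n ⊕ Fin n) → ℝ
  | Sum.inl i => Sum.elim (fun j => if j = i then ρ else 0) (fun j => if j = i then s else 0)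
  | Sum.inr i => Sum.elim (fun j => if j = i then s else 0) (fun j => if j = i then -ρ else 0)

theorem refl_inl (n : ℕ) (ρ s : ℝ) (i : Fin n) (g : (Fin n ⊕ Fin n) → ℝ) :
    Pool.TH231.DFM.ip (refl n ρ s (Sum.inl i)) g = ρ * g (Sum.inl i) + s * g (Sum.inr i) := by
  simp [Pool.TH231.DFM.ip, refl, Fintype.sum_sum_type]

theorem refl_inr (n : ℕ) (ρ s : ℝ) (i : Fin n) (g : (Fin n ⊕ Fin n) → ℝ) :
    Pool.TH231.DFM.ip (refl n ρ s (Sum.inr i)) g = s * g (Sum.inl i) - ρ * g (Sum.inr i) := by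
  simp [Pool.TH231.DFM.ip, refl, Fintype.sum_sum_type, sub_eq_add_neg]

theorem refl_orth (n : ℕ) (ρ s : ℝ) (h : ρ ^ 2 + s ^ 2 = 1) (i j : Fin n ⊕ Fin n) :
    Pool.TH231.DFM.ip (refl n ρ s i) (refl n ρ s j) = if i = j then 1 else 0 := by
  rcases i with i | i
  · rw [refl_inl]
    rcases j with j | j
    · by_cases hij : i = j
      · subst hij; simp [refl]; nlinarith
      · simp [refl, hij]
    · by_cases hij : i = j
      · subst hij; simp [refl]; ring
      · simp [refl, hij]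
  · rw [refl_inr]
    rcases j with j | j
    · by_cases hij : i = j
      · subst hij; simp [refl]; ring
      · simp [refl, hij]
    · by_cases hij : i = j
      · subst hij; simp [refl]; nlinarith
      · simp [refl, hij]

/-- `corr` as a measure on `ℝ^(2n)` -/
theorem corr_sum (n : ℕ) (ρ : ℝ) (A B : Set (Fin n → ℝ)) (hA : MeasurableSet A)
    (hB : MeasurableSet B) :
    corr ρ A B = (Pool.TH231.DFM.gam (Fin n ⊕ Fin n)).real
      {g | (fun i => g (Sum.inl i)) ∈ A ∧
        (fun i => ρ * g (Sum.inl i) + √(1 - ρ ^ 2) * g (Sum.inr i)) ∈ B} := by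
  have hS : MeasurableSet {p : (Fin n → ℝ) × (Fin n → ℝ) | p.1 ∈ A ∧
        (fun i => ρ * p.1 i + √(1 - ρ ^ 2) * p.2 i) ∈ B} := by
    refine MeasurableSet.inter (measurable_fst hA) ?_
    refine (show Measurable (fun p : (Fin n → ℝ) × (Fin n → ℝ) =>
        (fun i => ρ * p.1 i + √(1 - ρ ^ 2) * p.2 i)) from ?_) hB
    fun_prop
  have h := (measurePreserving_sumPiEquivProdPi (X := fun _ : Fin n ⊕ Fin n => ℝ)
    (fun _ : Fin n ⊕ Fin n => gaussianReal 0 1)).measure_preimage hS.nullMeasurableSet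
  unfold corr Measure.real gam
  rw [← h]
  rfl

theorem corr_swap (n : ℕ) (ρ : ℝ) (h0 : 0 < ρ) (h1 : ρ < 1) (A B : Set (Fin n → ℝ))
    (hA : MeasurableSet A) (hB : MeasurableSet B) : corr ρ A B = corr ρ B A := by
  have hs2 : √(1 - ρ ^ 2) ^ 2 = 1 - ρ ^ 2 := Real.sq_sqrt (by nlinarith)
  rw [corr_sum n ρ A B hA hB, corr_sum n ρ B A hB hA]
  set s := √(1 - ρ ^ 2) with hs
  have hmp := Pool.TH347.DFM.t_LAW (Fin n ⊕ Fin n) (Fin n ⊕ Fin n) (refl n ρ s)
    (refl_orth n ρ s (by linarith))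
  have hS : MeasurableSet {g : (Fin n ⊕ Fin n) → ℝ | (fun i => g (Sum.inl i)) ∈ A ∧
        (fun i => ρ * g (Sum.inl i) + s * g (Sum.inr i)) ∈ B} := by
    refine MeasurableSet.inter ?_ ?_
    · refine (show Measurable (fun g : (Fin n ⊕ Fin n) → ℝ => (fun i => g (Sum.inl i))) from ?_) hA
      fun_prop
    · refine (show Measurable (fun g : (Fin n ⊕ Fin n) → ℝ =>
        (fun i => ρ * g (Sum.inl i) + s * g (Sum.inr i))) from ?_) hB
      fun_prop
  have h := hmp.measure_preimage hS.nullMeasurableSet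
  unfold Measure.real
  rw [← h]
  congr 2
  ext g
  simp only [mem_preimage, mem_setOf_eq, refl_inl, refl_inr]
  have e : (fun i => ρ * (ρ * g (Sum.inl i) + s * g (Sum.inr i)) +
      s * (s * g (Sum.inl i) - ρ * g (Sum.inr i))) = fun i : Fin n => g (Sum.inl i) := by
    funext i
    have : ρ * (ρ * g (Sum.inl i) + s * g (Sum.inr i)) +
      s * (s * g (Sum.inl i) - ρ * g (Sum.inr i)) = (ρ ^ 2 + s ^ 2) * g (Sum.inl i) := by ring
    rw [this, hs2]; ring
  rw [e]
  exact and_comm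

end Pool.Agent.TH47.SG
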